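import Mathlib
import Pool.Agent.Helper916.General

namespace Pool.Agent.Results.MP_9bdca2_co.EventualFailure

/-- `f` restricts to a Costas permutation of order `n`: it is a bijection of `{1,...,n}` and the
vectors `(i - j, f i - f j)`, `1 ≤ j < i ≤ n`, are pairwise distinct in `ℤ × ℤ`. -/
def IsCostas (n : ℕ) (f : ℕ → ℕ) : Prop :=
  Set.BijOn f (Set.Icc 1 n) (Set.Icc 1 n) ∧
  ∀ i j k l : ℕ, 1 ≤ j → j < i → i ≤ n → 1 ≤ l → l < k → k ≤ n →
    (((i : ℤ) - j, (f i : ℤ) - f j) : ℤ × ℤ) = ((k : ℤ) - l, (f k : ℤ) - f l) → i = k ∧ j = l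

/-- Welch permutation `W_1(p, α, c)`: `p` is prime, `α` is a primitive root modulo `p`,
`0 ≤ c ≤ p - 2`, and `g i` is the residue of `α ^ (i - 1 + c)` in `{1,...,p-1}`
for `1 ≤ i ≤ p - 1`. -/
def IsWelch (p : ℕ) (α : ZMod p) (c : ℕ) (g : ℕ → ℕ) : Prop :=
  p.Prime ∧ orderOf α = p - 1 ∧ c ≤ p - 2 ∧
    ∀ i, 1 ≤ i → i ≤ p - 1 → g i = (α ^ (i - 1 + c)).val

/-- Golomb permutation `G_2(q, α, β)`, `q = |F|`: `α, β` are primitive elements of `F` and
`g : {1,...,q-2} → {1,...,q-2}` satisfies `α ^ i + β ^ (g i) = 1`. -/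
def IsGolomb {F : Type} [Field F] [Fintype F] (α β : F) (g : ℕ → ℕ) : Prop :=
  orderOf α = Fintype.card F - 1 ∧ orderOf β = Fintype.card F - 1 ∧
    ∀ i, 1 ≤ i → i ≤ Fintype.card F - 2 →
      1 ≤ g i ∧ g i ≤ Fintype.card F - 2 ∧ α ^ i + β ^ (g i) = 1

/-- method `G_1` produces a Costas array of order `n` -/
def ProducesG1 (n : ℕ) : Prop :=
  ∃ (F : Type) (_ : Field F) (_ : Fintype F) (α β : F) (g f : ℕ → ℕ),
    IsGolomb α β g ∧ n = Fintype.card F - 1 ∧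
    f 1 = 1 ∧ (∀ i, 2 ≤ i → i ≤ Fintype.card F - 1 → f i = g (i - 1) + 1) ∧
    IsCostas n f

/-- method `G_0` produces a Costas array of order `n` -/
def ProducesG0 (n : ℕ) : Prop :=
  ∃ (F : Type) (_ : Field F) (_ : Fintype F) (α β : F) (g f : ℕ → ℕ),
    IsGolomb α β g ∧ n = Fintype.card F ∧
    f 1 = 1 ∧ f (Fintype.card F) = Fintype.card F ∧
    (∀ i, 2 ≤ i → i ≤ Fintype.card F - 1 → f i = g (i - 1) + 1) ∧
    IsCostas n f

/-- method `W_0` produces a Costas array of order `n` -/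
def ProducesW0 (n : ℕ) : Prop :=
  ∃ (p : ℕ) (α : ZMod p) (c : ℕ) (g f : ℕ → ℕ),
    IsWelch p α c g ∧ n = p ∧
    f 1 = 1 ∧ (∀ i, 2 ≤ i → i ≤ p → f i = g (i - 1) + 1) ∧
    IsCostas n f

/-- Rickard's method `RW_0` produces a Costas array of order `n` -/
def ProducesRW0 (n : ℕ) : Prop :=
  ∃ (p : ℕ) (α : ZMod p) (c : ℕ) (g f : ℕ → ℕ) (t : ℕ),
    IsWelch p α c g ∧ n = p ∧ 2 ≤ t ∧ t ≤ p - 1 ∧
    (∀ i, 1 ≤ i → i ≤ p - 1 → f i = (g i + t - 1) % p + 1) ∧ f p = t ∧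
    IsCostas n f

/-- Rickard's method `RG_1` produces a Costas array of order `n` -/
def ProducesRG1 (n : ℕ) : Prop :=
  ∃ (F : Type) (_ : Field F) (_ : Fintype F) (α β : F) (g f : ℕ → ℕ) (t₁ t₂ : ℕ),
    IsGolomb α β g ∧ n = Fintype.card F - 1 ∧
    2 ≤ t₁ ∧ t₁ ≤ Fintype.card F - 2 ∧ 2 ≤ t₂ ∧ t₂ ≤ Fintype.card F - 2 ∧
    f t₁ = t₂ ∧
    (∀ i, 1 ≤ i → i ≤ Fintype.card F - 1 → i ≠ t₁ →
      f i = (g ((((i : ℤ) - t₁ - 1) % ((Fintype.card F : ℤ) - 1)).toNat + 1) + t₂ - 1)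
        % (Fintype.card F - 1) + 1) ∧
    IsCostas n f

theorem IsCostas.distinct {n : ℕ} {f : ℕ → ℕ} (h : IsCostas n f) :
    Helper916.DistinctDiff n f := by
  intro i j k l h1 h2 h3 h4 h5 h6 h7 h8
  exact (h.2 i j k l h1 h2 h3 h4 h5 h6 (Prod.ext h7 h8)).1

theorem IsCostas.range {n : ℕ} {f : ℕ → ℕ} (h : IsCostas n f) :
    ∀ i, 1 ≤ i → i ≤ n → 1 ≤ f i ∧ f i ≤ n := by
  intro i h1 h2
  exact h.1.mapsTo ⟨h1, h2⟩

theorem zpow_eq_of_dvd {F : Type} [Field F] {N : ℕ} {α : F} (hN : 0 < N)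
    (hα : orderOf α = N) {a b : ℤ} (h : (N : ℤ) ∣ a - b) : α ^ a = α ^ b := by
  have hα0 : α ≠ 0 := by
    intro h0
    rw [h0, orderOf_zero] at hα
    omega
  obtain ⟨k, hk⟩ := h
  have h3 : a = b + N * k := by linarith
  rw [h3, zpow_add₀ hα0, zpow_mul, zpow_natCast, ← hα, pow_orderOf_eq_one, one_zpow, mul_one]

theorem failure_G1 : ∃ N : ℕ, ∀ n > N, ¬ ProducesG1 n := by
  obtain ⟨Q, hQ⟩ := Helper916.golomb_general
  refine ⟨Q, ?_⟩
  rintro n hn ⟨F, _, _, α, β, g, f, ⟨hα, hβ, hg⟩, hnq, hf1, hf, hC⟩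
  have hcard := Fintype.one_lt_card (α := F)
  refine hQ F (by omega) n (by omega) α β (by rw [hα, hnq]) (by rw [hβ, hnq]) 1 1 (le_refl _)
    (by omega) (le_refl _) (by omega) f hC.range hf1 ?_ hC.distinct
  intro i hi1 hi2 hi3
  have h1 := hf i (by omega) (by omega)
  have h2 := hg (i - 1) (by omega) (by omega)
  have e1 : (i : ℤ) - (1 : ℕ) = ((i - 1 : ℕ) : ℤ) := by omega
  have e2 : (f i : ℤ) - (1 : ℕ) = ((g (i - 1) : ℕ) : ℤ) := by rw [h1]; push_cast; ring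
  rw [e1, e2, zpow_natCast, zpow_natCast]
  exact h2.2.2

theorem failure_G0 : ∃ N : ℕ, ∀ n > N, ¬ ProducesG0 n := by
  obtain ⟨Q, hQ⟩ := Helper916.golomb_general
  refine ⟨Q, ?_⟩
  rintro n hn ⟨F, _, _, α, β, g, f, ⟨hα, hβ, hg⟩, hnq, hf1, hfq, hf, hC⟩
  have hcard := Fintype.one_lt_card (α := F)
  refine hQ F (by omega) (n - 1) (by omega) α β (by rw [hα, hnq]) (by rw [hβ, hnq]) 1 1 (le_refl _)
    (by omega) (le_refl _) (by omega) f ?_ hf1 ?_ ?_
  · intro i h1 h2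
    by_cases hi : i = 1
    · rw [hi, hf1]; omega
    · have h3 := hf i (by omega) (by omega)
      have h4 := hg (i - 1) (by omega) (by omega)
      rw [h3]
      omega
  · intro i hi1 hi2 hi3
    have h1 := hf i (by omega) (by omega)
    have h2 := hg (i - 1) (by omega) (by omega)
    have e1 : (i : ℤ) - (1 : ℕ) = ((i - 1 : ℕ) : ℤ) := by omega
    have e2 : (f i : ℤ) - (1 : ℕ) = ((g (i - 1) : ℕ) : ℤ) := by rw [h1]; push_cast; ring
    rw [e1, e2, zpow_natCast, zpow_natCast]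
    exact h2.2.2
  · intro i j k l h1 h2 h3 h4 h5 h6 h7 h8
    exact hC.distinct i j k l h1 h2 (by omega) h4 h5 (by omega) h7 h8

theorem failure_RG1 : ∃ N : ℕ, ∀ n > N, ¬ ProducesRG1 n := by
  obtain ⟨Q, hQ⟩ := Helper916.golomb_general
  refine ⟨Q, ?_⟩
  rintro n hn ⟨F, _, _, α, β, g, f, t₁, t₂, ⟨hα, hβ, hg⟩, hnq, ht1, ht1', ht2, ht2', hft, hf, hC⟩
  have hcard := Fintype.one_lt_card (α := F)
  have hn0 : 0 < n := by omega
  have hαn : orderOf α = n := by rw [hα, hnq]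
  have hβn : orderOf β = n := by rw [hβ, hnq]
  have hcn : (Fintype.card F : ℤ) - 1 = n := by omega
  refine hQ F (by omega) n (by omega) α β hαn hβn t₁ t₂ (by omega)
    (by omega) (by omega) (by omega) f hC.range hft ?_ hC.distinct
  intro i hi1 hi2 hi3
  have h1 := hf i hi1 (by omega) hi3
  rw [hcn, ← hnq] at h1
  set r : ℤ := ((i : ℤ) - t₁ - 1) % (n : ℤ) with hr
  have hr0 : 0 ≤ r := Int.emod_nonneg _ (by omega)
  have hrn : r < n := Int.emod_lt_of_pos _ (by omega)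
  have hdvd : (n : ℤ) ∣ ((i : ℤ) - t₁ - 1) - r := by
    rw [hr]; exact Int.dvd_self_sub_emod
  set i' : ℕ := r.toNat + 1 with hi'
  have hi'r : (i' : ℤ) = r + 1 := by rw [hi']; push_cast; rw [Int.toNat_of_nonneg hr0]
  have hne : i' ≠ n := by
    intro h
    have : r = n - 1 := by rw [h] at hi'r; linarith
    rw [this] at hdvd
    obtain ⟨k, hk⟩ := hdvd
    have hk2 : (i : ℤ) - t₁ = n * (k + 1) := by linarith
    have hk3 : -(n : ℤ) < n * (k + 1) := by rw [← hk2]; omega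
    have hk4 : (n : ℤ) * (k + 1) < n := by rw [← hk2]; omega
    have hk5 : k + 1 < 1 := by
      by_contra hcon
      push Not at hcon
      nlinarith
    have hk6 : -1 < k + 1 := by
      by_contra hcon
      push Not at hcon
      nlinarith
    have hk7 : k + 1 = 0 := by omega
    rw [hk7, mul_zero] at hk2
    apply hi3
    omega
  have h2 := hg i' (by omega) (by omega)
  have e1 : α ^ ((i : ℤ) - t₁) = α ^ i' := by
    rw [← zpow_natCast]
    apply zpow_eq_of_dvd hn0 hαn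
    have : (i : ℤ) - t₁ - (i' : ℤ) = (i : ℤ) - t₁ - 1 - r := by rw [hi'r]; ring
    rw [this]; exact hdvd
  have e2 : β ^ ((f i : ℤ) - t₂) = β ^ (g i') := by
    rw [← zpow_natCast]
    apply zpow_eq_of_dvd hn0 hβn
    have h3 : (n : ℤ) ∣ ((g i' + t₂ - 1 : ℕ) : ℤ) - (((g i' + t₂ - 1) % n : ℕ) : ℤ) := by
      push_cast
      exact Int.dvd_self_sub_emod
    have h4 : ((g i' + t₂ - 1 : ℕ) : ℤ) = (g i' : ℤ) + t₂ - 1 := by omega
    have h5 : (f i : ℤ) - t₂ - (g i' : ℤ)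
        = -(((g i' + t₂ - 1 : ℕ) : ℤ) - (((g i' + t₂ - 1) % n : ℕ) : ℤ)) := by
      rw [h1, h4]; push_cast; ring
    rw [h5]
    exact (dvd_neg).mpr h3
  rw [e1, e2]
  exact h2.2.2

theorem failure_RW0 : ∃ N : ℕ, ∀ n > N, ¬ ProducesRW0 n := by
  obtain ⟨Q, hQ⟩ := Helper916.welch_general
  refine ⟨Q, ?_⟩
  rintro n hn ⟨p, α, c, g, f, t, ⟨hp, hα, hc, hg⟩, hnp, ht1, ht2, hf, hfp, hC⟩
  subst hnp
  have : Fact n.Prime := ⟨hp⟩
  have hn1 := hp.one_lt
  have hα0 : α ≠ 0 := by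
    intro h0
    rw [h0, orderOf_zero] at hα
    omega
  have hn2 : 2 < n := by omega
  refine hQ n hp (by omega) α (α⁻¹ * α ^ c) hα (mul_ne_zero (inv_ne_zero hα0) (pow_ne_zero c hα0))
    t (by omega) (by omega) f hC.range hfp ?_ hC.distinct
  intro i hi1 hi2
  have h1 := hf i hi1 hi2
  have h2 := hg i hi1 hi2
  have h3 : (((g i + t - 1) % n + 1 : ℕ) : ZMod n) = (g i : ZMod n) + t := by
    have e : g i + t - 1 + 1 = g i + t := by omega
    calc (((g i + t - 1) % n + 1 : ℕ) : ZMod n) = ((g i + t - 1 + 1 : ℕ) : ZMod n) := by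
          push_cast; rw [ZMod.natCast_mod]
      _ = (g i : ZMod n) + t := by rw [e]; push_cast; ring
  rw [h1, h3, h2, ZMod.natCast_val, ZMod.cast_id', id]
  have h4 : α ^ i = α * α ^ (i - 1) := by
    rw [← pow_succ']; congr 1; omega
  rw [h4, pow_add]
  field_simp

theorem failure_W0 : ∃ N : ℕ, ∀ n > N, ¬ ProducesW0 n := by
  obtain ⟨Q, hQ⟩ := Helper916.welch_general
  refine ⟨Q, ?_⟩
  rintro n hn ⟨p, α, c, g, f, ⟨hp, hα, hc, hg⟩, hnp, hf1, hf, hC⟩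
  subst hnp
  have : Fact n.Prime := ⟨hp⟩
  have hn1 := hp.one_lt
  have hα0 : α ≠ 0 := by
    intro h0
    rw [h0, orderOf_zero] at hα
    omega
  have hαinv : orderOf (α⁻¹) = n - 1 := by
    have e1 : α⁻¹ = ((Units.mk0 α hα0)⁻¹ : (ZMod n)ˣ) := by simp
    rw [e1, orderOf_units, orderOf_inv, ← hα, ← orderOf_units, Units.val_mk0]
  have hfermat : α ^ (n - 1) = 1 := by rw [← hα]; exact pow_orderOf_eq_one α
  refine hQ n hp (by omega) (α⁻¹) (α ^ c) hαinv (pow_ne_zero c hα0)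
    1 (le_refl _) (by omega) (fun i => f (n + 1 - i)) ?_ ?_ ?_ ?_
  · intro i h1 h2
    exact hC.range (n + 1 - i) (by omega) (by omega)
  · have : n + 1 - n = 1 := by omega
    simp only [this]
    exact hf1
  · intro i hi1 hi2
    have h1 := hf (n + 1 - i) (by omega) (by omega)
    have e0 : n + 1 - i - 1 = n - i := by omega
    rw [e0] at h1
    have h2 := hg (n - i) (by omega) (by omega)
    simp only [h1]
    push_cast
    rw [h2, ZMod.natCast_val, ZMod.cast_id', id]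
    congr 1
    have e3 : α ^ (n - i - 1 + c) * α ^ i = α ^ (n - 1) * α ^ c := by
      rw [← pow_add, ← pow_add]; congr 1; omega
    rw [hfermat, one_mul] at e3
    rw [inv_pow, ← e3, mul_assoc, mul_inv_cancel₀ (pow_ne_zero i hα0), mul_one]
  · intro i j k l h1 h2 h3 h4 h5 h6 h7 h8
    have e := hC.distinct (n + 1 - j) (n + 1 - i) (n + 1 - l) (n + 1 - k) (by omega) (by omega)
      (by omega) (by omega) (by omega) (by omega) (by omega) (by linarith)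
    omega

theorem isCostas_of_check (n : ℕ) (f : ℕ → ℕ)
    (h1 : ∀ i ∈ Finset.Icc 1 n, f i ∈ Finset.Icc 1 n)
    (h2 : ∀ i ∈ Finset.Icc 1 n, ∀ j ∈ Finset.Icc 1 n, f i = f j → i = j)
    (h3 : ∀ y ∈ Finset.Icc 1 n, ∃ x ∈ Finset.Icc 1 n, f x = y)
    (h4 : ∀ i ∈ Finset.Icc 1 n, ∀ j ∈ Finset.Icc 1 n, ∀ k ∈ Finset.Icc 1 n,
      ∀ l ∈ Finset.Icc 1 n, j < i → l < k → (i : ℤ) - j = k - l →
        (f i : ℤ) - f j = f k - f l → i = k) : IsCostas n f := by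
  refine ⟨⟨?_, ?_, ?_⟩, ?_⟩
  · intro i hi
    have := h1 i (by simpa using hi)
    simpa using this
  · intro i hi j hj h
    exact h2 i (by simpa using hi) j (by simpa using hj) h
  · intro y hy
    obtain ⟨x, hx, hxy⟩ := h3 y (by simpa using hy)
    exact ⟨x, by simpa using hx, hxy⟩
  · intro i j k l h5 h6 h7 h8 h9 h10 h
    rw [Prod.mk.injEq] at h
    have := h4 i (by simp; omega) j (by simp; omega) k (by simp; omega) l (by simp; omega)
      h6 h9 h.1 h.2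
    omega

theorem ord2 : orderOf (2 : ZMod 5) = 5 - 1 := (orderOf_eq_iff (by norm_num)).mpr (by decide)

theorem ord3 : orderOf (3 : ZMod 5) = 5 - 1 := (orderOf_eq_iff (by norm_num)).mpr (by decide)

theorem g23 : ∀ i, 1 ≤ i → i ≤ 5 - 2 → 1 ≤ [0, 2, 3, 1].getD i 0 ∧
    [0, 2, 3, 1].getD i 0 ≤ 5 - 2 ∧ (2 : ZMod 5) ^ i + 3 ^ ([0, 2, 3, 1].getD i 0) = 1 := by
  intro i h1 h2
  interval_cases i <;> decide

theorem g22 : ∀ i, 1 ≤ i → i ≤ 5 - 2 → 1 ≤ [0, 2, 1, 3].getD i 0 ∧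
    [0, 2, 1, 3].getD i 0 ≤ 5 - 2 ∧ (2 : ZMod 5) ^ i + 2 ^ ([0, 2, 1, 3].getD i 0) = 1 := by
  intro i h1 h2
  interval_cases i <;> decide

/-- The definitions are not vacuous: each method produces some Costas array. -/
theorem sanity_G1 : ProducesG1 4 := by
  have hp : Fact (Nat.Prime 5) := ⟨by norm_num⟩
  refine ⟨ZMod 5, inferInstance, inferInstance, 2, 3, fun i => [0, 2, 3, 1].getD i 0,
    fun i => [0, 1, 3, 4, 2].getD i 0, ⟨?_, ?_, ?_⟩, ?_, ?_, ?_, ?_⟩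
  · rw [ZMod.card]; exact ord2
  · rw [ZMod.card]; exact ord3
  · rw [ZMod.card]; exact g23
  · rw [ZMod.card]
  · rfl
  · rw [ZMod.card]; intro i h1 h2
    interval_cases i <;> decide
  · exact isCostas_of_check _ _ (by decide) (by decide) (by decide) (by decide)

theorem sanity_G0 : ProducesG0 5 := by
  have hp : Fact (Nat.Prime 5) := ⟨by norm_num⟩
  refine ⟨ZMod 5, inferInstance, inferInstance, 2, 3, fun i => [0, 2, 3, 1].getD i 0,
    fun i => [0, 1, 3, 4, 2, 5].getD i 0, ⟨?_, ?_, ?_⟩, ?_, ?_, ?_, ?_, ?_⟩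
  · rw [ZMod.card]; exact ord2
  · rw [ZMod.card]; exact ord3
  · rw [ZMod.card]; exact g23
  · rw [ZMod.card]
  · rfl
  · rw [ZMod.card]; rfl
  · rw [ZMod.card]; intro i h1 h2
    interval_cases i <;> decide
  · exact isCostas_of_check _ _ (by decide) (by decide) (by decide) (by decide)

theorem sanity_W0 : ProducesW0 3 := by
  refine ⟨3, 2, 1, fun i => [0, 2, 1].getD i 0,
    fun i => [0, 1, 3, 2].getD i 0, ⟨?_, ?_, ?_, ?_⟩, rfl, rfl, ?_, ?_⟩
  · norm_num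
  · exact (orderOf_eq_iff (by norm_num)).mpr (by decide)
  · norm_num
  · intro i h1 h2
    interval_cases i <;> decide
  · intro i h1 h2
    interval_cases i <;> decide
  · exact isCostas_of_check _ _ (by decide) (by decide) (by decide) (by decide)

theorem sanity_RW0 : ProducesRW0 5 := by
  refine ⟨5, 2, 0, fun i => [0, 1, 2, 4, 3].getD i 0,
    fun i => [0, 4, 5, 2, 1, 3].getD i 0, 3, ⟨?_, ?_, ?_, ?_⟩, rfl, ?_, ?_, ?_, rfl, ?_⟩
  · norm_num
  · exact (orderOf_eq_iff (by norm_num)).mpr (by decide)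
  · norm_num
  · intro i h1 h2
    interval_cases i <;> decide
  · norm_num
  · norm_num
  · intro i h1 h2
    interval_cases i <;> decide
  · exact isCostas_of_check _ _ (by decide) (by decide) (by decide) (by decide)

theorem sanity_RG1 : ProducesRG1 4 := by
  have hp : Fact (Nat.Prime 5) := ⟨by norm_num⟩
  refine ⟨ZMod 5, inferInstance, inferInstance, 2, 2, fun i => [0, 2, 1, 3].getD i 0,
    fun i => [0, 1, 2, 4, 3].getD i 0, 2, 2, ⟨?_, ?_, ?_⟩, ?_, ?_, ?_, ?_, ?_, rfl, ?_, ?_⟩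
  · rw [ZMod.card]; exact ord2
  · rw [ZMod.card]; exact ord2
  · rw [ZMod.card]; exact g22
  · rw [ZMod.card]
  · norm_num
  · rw [ZMod.card]; norm_num
  · norm_num
  · rw [ZMod.card]; norm_num
  · rw [ZMod.card]; intro i h1 h2 h3
    interval_cases i <;> simp_all
  · exact isCostas_of_check _ _ (by decide) (by decide) (by decide) (by decide)

/-- For each of the five corner-dot methods `G_1, G_0, W_0, RW_0, RG_1` there is `N` such that the
method produces no Costas array of any order `n > N`. -/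
theorem result :
    (∃ N : ℕ, ∀ n > N, ¬ ProducesG1 n) ∧
    (∃ N : ℕ, ∀ n > N, ¬ ProducesG0 n) ∧
    (∃ N : ℕ, ∀ n > N, ¬ ProducesW0 n) ∧
    (∃ N : ℕ, ∀ n > N, ¬ ProducesRW0 n) ∧
    (∃ N : ℕ, ∀ n > N, ¬ ProducesRG1 n) :=
  ⟨failure_G1, failure_G0, failure_W0, failure_RW0, failure_RG1⟩

end Pool.Agent.Results.MP_9bdca2_co.EventualFailure
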